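import Pool.Agent.R302.WienerTwo

namespace Pool.Agent.Results.MP_de3d06_an.CircleWiener

open Pool.Agent.R302.WTwo

/-- The critical constant for norm controlled inversion in the two-sided Wiener algebra of
absolutely convergent Fourier series on the circle equals `1 / 2`: the norms of the inverses are
uniformly bounded for `δ > 1 / 2` and unbounded for `δ ≤ 1 / 2`. -/
theorem result : deltaW = 1 / 2 ∧ (∀ δ : ℝ, 1 / 2 < δ → CW δ < ⊤) ∧
    (∀ δ : ℝ, 0 < δ → δ ≤ 1 / 2 → CW δ = ⊤) :=
  ⟨deltaW_eq, fun _ h => CW_lt_top h, fun _ h1 h2 => CW_top h1 h2⟩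

end Pool.Agent.Results.MP_de3d06_an.CircleWiener
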