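import Pool.Agent.R302.WienerDisc

namespace Pool.Agent.Results.MP_de3d06_an.DiscWiener

open Pool.Agent.R302.Wiener

/-- The threshold `δ₀` of the problem equals `1 / 2`; moreover `C(δ) = 1 / (2 δ - 1)` for
`1 / 2 < δ ≤ 1` and `C(δ) = ∞` for `0 < δ ≤ 1 / 2`. -/
theorem result : delta0 = 1 / 2 ∧
    (∀ δ : ℝ, 1 / 2 < δ → δ ≤ 1 → CC δ = ENNReal.ofReal (1 / (2 * δ - 1))) ∧
    (∀ δ : ℝ, 0 < δ → δ ≤ 1 / 2 → CC δ = ⊤) :=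
  ⟨delta0_eq, fun _ h1 h2 => CC_eq h1 h2, fun _ h1 h2 => CC_top h1 h2⟩

end Pool.Agent.Results.MP_de3d06_an.DiscWiener
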